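import Pool.Agent.Helper98.TW.Stmts

/-! DNS: density of the products of `𝒜`-measurable functions and elements of a group of
unimodular functions (MP_7a8f48_an). -/

open MeasureTheory Filter Topology Finset
open scoped ComplexConjugate

namespace Pool.Agent.Helper96.TWR

open Pool.Agent.Helper98.TW

section fc

variable {Ω : Type} [m0 : MeasurableSpace Ω] {μ : Measure Ω}

/-- continuous functions of a unimodular function -/
theorem fc_cont {G : Ω → ℂ} (hG : Integrable G μ) {φ : Ω → ℂ} (hφ : UF μ φ)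
    (h : ∀ k : ℤ, ∫ x, G x * φ x ^ k ∂μ = 0) {g : ℂ → ℂ} (hg : Continuous g) :
    ∫ x, G x * g (φ x) ∂μ = 0 := by
  have hu : ∀ x, ∃ u : AddCircle (1 : ℝ), ‖φ x‖ = 1 → ((AddCircle.toCircle u : Circle) : ℂ) = φ x := by
    intro x
    by_cases hx : ‖φ x‖ = 1
    · obtain ⟨u, hu⟩ := (AddCircle.homeomorphCircle (T := (1 : ℝ)) one_ne_zero).surjective
        ⟨φ x, mem_sphere_zero_iff_norm.2 hx⟩
      refine ⟨u, fun _ => ?_⟩
      rw [AddCircle.homeomorphCircle_apply] at hu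
      rw [hu]
    · exact ⟨0, fun h => absurd h hx⟩
  choose u hu using hu
  have hu' : ∀ᵐ x ∂μ, ((AddCircle.toCircle (u x) : Circle) : ℂ) = φ x := by
    filter_upwards [hφ.2] with x hx
    exact hu x hx
  -- trigonometric polynomials
  have hspan : ∀ P ∈ Submodule.span ℂ (Set.range (@fourier (1 : ℝ))),
      AEStronglyMeasurable (fun x => P (u x)) μ ∧ ∫ x, G x * P (u x) ∂μ = 0 := by
    intro P hP
    refine Submodule.span_induction (p := fun P _ =>
      AEStronglyMeasurable (fun x => P (u x)) μ ∧ ∫ x, G x * P (u x) ∂μ = 0) ?_ ?_ ?_ ?_ hP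
    · rintro _ ⟨k, rfl⟩
      have e : ∀ᵐ x ∂μ, (fourier k (u x) : ℂ) = φ x ^ k := by
        filter_upwards [hu'] with x hx
        rw [fourier_apply, AddCircle.toCircle_zsmul, Circle.coe_zpow, hx]
      have hm : AEStronglyMeasurable (fun x => φ x ^ k) μ :=
        (hφ.1.pow_const k).aestronglyMeasurable
      refine ⟨hm.congr (e.mono fun x hx => hx.symm), ?_⟩
      rw [← h k]
      apply integral_congr_ae
      filter_upwards [e] with x hx
      rw [hx]
    · exact ⟨aestronglyMeasurable_const, by simp⟩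
    · intro P Q _ _ hP hQ
      have i1 : Integrable (fun x => G x * P (u x)) μ :=
        hG.mul_bdd (c := ‖P‖) hP.1 (Eventually.of_forall fun x => P.norm_coe_le_norm _)
      have i2 : Integrable (fun x => G x * Q (u x)) μ :=
        hG.mul_bdd (c := ‖Q‖) hQ.1 (Eventually.of_forall fun x => Q.norm_coe_le_norm _)
      refine ⟨hP.1.add hQ.1, ?_⟩
      have e : ∀ x, G x * (P + Q) (u x) = G x * P (u x) + G x * Q (u x) := fun x => by
        rw [ContinuousMap.add_apply]
        ring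
      simp_rw [e]
      rw [integral_add i1 i2, hP.2, hQ.2, add_zero]
    · intro c P _ hP
      refine ⟨hP.1.const_smul c, ?_⟩
      have e : ∀ x, G x * (c • P) (u x) = c * (G x * P (u x)) := fun x => by
        rw [ContinuousMap.smul_apply, smul_eq_mul]
        ring
      simp_rw [e]
      rw [integral_const_mul, hP.2, mul_zero]
  -- approximation
  set H : C(AddCircle (1 : ℝ), ℂ) := ⟨fun v => g ((AddCircle.toCircle v : Circle) : ℂ),
    hg.comp (continuous_subtype_val.comp AddCircle.continuous_toCircle)⟩ with hH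
  have hHu : ∀ᵐ x ∂μ, H (u x) = g (φ x) := by
    filter_upwards [hu'] with x hx
    show g ((AddCircle.toCircle (u x) : Circle) : ℂ) = g (φ x)
    rw [hx]
  have hgm : AEStronglyMeasurable (fun x => g (φ x)) μ :=
    (hg.measurable.comp hφ.1).aestronglyMeasurable
  have hHm : AEStronglyMeasurable (fun x => H (u x)) μ := hgm.congr (hHu.mono fun x hx => hx.symm)
  have hH0 : ∫ x, G x * g (φ x) ∂μ = ∫ x, G x * H (u x) ∂μ := by
    apply integral_congr_ae
    filter_upwards [hHu] with x hx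
    rw [hx]
  rw [hH0]
  have hcl : H ∈ closure (Submodule.span ℂ (Set.range (@fourier (1 : ℝ))) :
      Set C(AddCircle (1 : ℝ), ℂ)) := by
    have h1 := span_fourier_closure_eq_top (T := (1 : ℝ))
    have h2 : H ∈ (Submodule.span ℂ (Set.range (@fourier (1 : ℝ)))).topologicalClosure := by
      rw [h1]
      trivial
    exact h2
  have hle : ∀ ε : ℝ, 0 < ε → ‖∫ x, G x * H (u x) ∂μ‖ ≤ ε * ∫ x, ‖G x‖ ∂μ := by
    intro ε hε
    obtain ⟨P, hP, hPε⟩ := Metric.mem_closure_iff.1 hcl ε hε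
    obtain ⟨hPm, hP0⟩ := hspan P hP
    have i1 : Integrable (fun x => G x * P (u x)) μ :=
      hG.mul_bdd (c := ‖P‖) hPm (Eventually.of_forall fun x => P.norm_coe_le_norm _)
    have i2 : Integrable (fun x => G x * H (u x)) μ :=
      hG.mul_bdd (c := ‖H‖) hHm (Eventually.of_forall fun x => H.norm_coe_le_norm _)
    have e : ∫ x, G x * H (u x) ∂μ = ∫ x, (G x * H (u x) - G x * P (u x)) ∂μ := by
      rw [integral_sub i2 i1, hP0, sub_zero]
    rw [e, ← integral_const_mul]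
    refine norm_integral_le_of_norm_le (hG.norm.const_mul ε) (Eventually.of_forall fun x => ?_)
    rw [← mul_sub, norm_mul, mul_comm]
    refine mul_le_mul_of_nonneg_right ?_ (norm_nonneg _)
    have h3 : ‖(H - P) (u x)‖ ≤ ‖H - P‖ := (H - P).norm_coe_le_norm _
    rw [dist_eq_norm] at hPε
    exact h3.trans hPε.le
  have h0 : ‖∫ x, G x * H (u x) ∂μ‖ ≤ 0 := by
    refine le_of_forall_pos_le_add fun δ hδ => ?_
    have hI : 0 ≤ ∫ x, ‖G x‖ ∂μ := integral_nonneg fun x => norm_nonneg _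
    have h4 := hle (δ / (∫ x, ‖G x‖ ∂μ + 1)) (by positivity)
    refine h4.trans ?_
    rw [div_mul_eq_mul_div, zero_add, div_le_iff₀ (by positivity)]
    nlinarith
  exact norm_le_zero_iff.1 h0

/-- sets defined by a unimodular function -/
theorem fc_set {G : Ω → ℂ} (hG : Integrable G μ) {φ : Ω → ℂ} (hφ : UF μ φ)
    (h : ∀ k : ℤ, ∫ x, G x * φ x ^ k ∂μ = 0) {K : Set ℂ} (hK : MeasurableSet K) :
    ∫ x in φ ⁻¹' K, G x ∂μ = 0 := by
  have hG0 : ∫ x, G x ∂μ = 0 := by
    rw [← h 0]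
    simp
  refine MeasurableSpace.induction_on_inter (C := fun K _ => ∫ x in φ ⁻¹' K, G x ∂μ = 0)
    (s := {s : Set ℂ | IsClosed s}) ?_ isPiSystem_isClosed ?_ ?_ ?_ ?_ K hK
  · rw [← borel_eq_generateFrom_isClosed]
    exact BorelSpace.measurable_eq
  · simp
  · intro K hK
    have hK' : IsClosed K := hK
    have h1 : ∀ n : ℕ, ∫ x, G x * ((hK'.apprSeq n (φ x) : ℝ) : ℂ) ∂μ = 0 := by
      intro n
      refine fc_cont hG hφ h (g := fun z => ((hK'.apprSeq n z : ℝ) : ℂ)) ?_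
      exact Complex.continuous_ofReal.comp
        (NNReal.continuous_coe.comp (hK'.apprSeq n).continuous)
    have h2 : Tendsto (fun n : ℕ => ∫ x, G x * ((hK'.apprSeq n (φ x) : ℝ) : ℂ) ∂μ) atTop
        (𝓝 (∫ x, (φ ⁻¹' K).indicator G x ∂μ)) := by
      refine tendsto_integral_of_dominated_convergence (fun x => ‖G x‖) ?_ hG.norm ?_ ?_
      · intro n
        refine hG.aestronglyMeasurable.mul ?_
        have hc : Continuous fun z : ℂ => ((hK'.apprSeq n z : ℝ) : ℂ) :=
          Complex.continuous_ofReal.comp (NNReal.continuous_coe.comp (hK'.apprSeq n).continuous)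
        exact (hc.measurable.comp hφ.1).aestronglyMeasurable
      · intro n
        refine Eventually.of_forall fun x => ?_
        rw [norm_mul]
        refine mul_le_of_le_one_right (norm_nonneg _) ?_
        rw [Complex.norm_real, Real.norm_of_nonneg (NNReal.coe_nonneg _)]
        exact_mod_cast HasOuterApproxClosed.apprSeq_apply_le_one hK' n (φ x)
      · refine Eventually.of_forall fun x => ?_
        have h3 := HasOuterApproxClosed.tendsto_apprSeq hK'
        rw [tendsto_pi_nhds] at h3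
        have h4 := h3 (φ x)
        have h5 : Tendsto (fun n : ℕ => G x * ((hK'.apprSeq n (φ x) : ℝ) : ℂ)) atTop
            (𝓝 (G x * (((K.indicator (fun _ => (1 : NNReal)) (φ x) : NNReal) : ℝ) : ℂ))) := by
          refine Tendsto.const_mul _ ?_
          exact (Complex.continuous_ofReal.tendsto _).comp
            ((NNReal.continuous_coe.tendsto _).comp h4)
        have h6 : G x * (((K.indicator (fun _ => (1 : NNReal)) (φ x) : NNReal) : ℝ) : ℂ) =
            (φ ⁻¹' K).indicator G x := by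
          by_cases hx : φ x ∈ K
          · rw [Set.indicator_of_mem hx, Set.indicator_of_mem (s := φ ⁻¹' K) hx]
            simp
          · rw [Set.indicator_of_notMem hx, Set.indicator_of_notMem (s := φ ⁻¹' K) hx]
            simp
        rw [h6] at h5
        exact h5
    have h3 : Tendsto (fun _ : ℕ => (0 : ℂ)) atTop (𝓝 (∫ x, (φ ⁻¹' K).indicator G x ∂μ)) := by
      refine h2.congr fun n => h1 n
    have h4 := tendsto_nhds_unique h3 tendsto_const_nhds
    rw [integral_indicator (hφ.1 hK'.measurableSet)] at h4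
    exact h4
  · intro K hKm hK0
    have h1 := integral_add_compl (hφ.1 hKm) hG
    rw [hK0, hG0, zero_add] at h1
    rw [Set.preimage_compl]
    exact h1
  · intro K hd hKm hK0
    rw [Set.preimage_iUnion]
    have h1 := hasSum_integral_iUnion (μ := μ) (f := G) (s := fun i => φ ⁻¹' K i)
      (fun i => hφ.1 (hKm i)) (fun i j hij => (hd hij).preimage φ) hG.integrableOn
    have h2 : (fun i => ∫ x in φ ⁻¹' K i, G x ∂μ) = fun _ : ℕ => (0 : ℂ) := funext hK0
    rw [h2] at h1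
    exact h1.unique hasSum_zero

end fc

section main

variable {Ω : Type} [m0 : MeasurableSpace Ω] {μ : Measure Ω}

theorem lm_jo {𝒜 : SA Ω} {Φ : Set (Ω → ℂ)} (h𝒜 : Lm 𝒜) (hΦ : ∀ φ ∈ Φ, Measurable φ) :
    Lm (jo 𝒜 (sg Φ)) := by
  have h1 : @LE.le (MeasurableSpace Ω) _ 𝒜 m0 := h𝒜
  have h2 : (⨆ φ ∈ Φ, MeasurableSpace.comap φ (inferInstance : MeasurableSpace ℂ) :
      MeasurableSpace Ω) ≤ m0 := iSup₂_le fun φ hφ => (hΦ φ hφ).comap_le
  exact sup_le h1 h2

/-- integer powers -/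
theorem zpow_mem {Φ : Set (Ω → ℂ)} (hΦ : Grp μ Φ) {φ φ₁ : Ω → ℂ} (hφ : φ ∈ Φ) (hφ₁ : φ₁ ∈ Φ)
    (k : ℤ) : ∃ φ' ∈ Φ, ∀ᵐ x ∂μ, conj (φ' x) = conj (φ x) * φ₁ x ^ k := by
  have hnat : ∀ n : ℕ, ∀ ψ ∈ Φ, (fun x => φ x * ψ x ^ n) ∈ Φ := by
    intro n ψ hψ
    induction n with
    | zero => simpa using hφ
    | succ n ih =>
      have h1 := hΦ.mul _ ih ψ hψ
      have h2 : (fun x => φ x * ψ x ^ n * ψ x) = fun x => φ x * ψ x ^ (n + 1) := by
        funext x
        ring
      rw [← h2]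
      exact h1
  have hinv : ∀ᵐ x ∂μ, conj (φ₁ x) = (φ₁ x)⁻¹ := by
    filter_upwards [(hΦ.uf φ₁ hφ₁).2] with x hx
    rw [Complex.inv_def, Complex.normSq_eq_norm_sq, hx]
    simp
  rcases le_total 0 k with hk | hk
  · obtain ⟨n, rfl⟩ := Int.eq_ofNat_of_zero_le hk
    refine ⟨_, hnat n _ (hΦ.inv φ₁ hφ₁), Eventually.of_forall fun x => ?_⟩
    rw [map_mul, map_pow, Complex.conj_conj, zpow_natCast]
  · obtain ⟨n, hn⟩ := Int.eq_ofNat_of_zero_le (neg_nonneg.2 hk)
    refine ⟨_, hnat n _ hφ₁, ?_⟩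
    filter_upwards [hinv] with x hx
    have hk' : k = -(n : ℤ) := by omega
    rw [map_mul, map_pow, hx, hk', zpow_neg, zpow_natCast, inv_pow]

/-- sets on which all the integrals vanish -/
def Gd (μ : Measure Ω) (𝒜 : SA Ω) (Φ : Set (Ω → ℂ)) (F : Ω → ℂ) (B : Set Ω) : Prop :=
  MeasurableSet B ∧ ∀ A : Set Ω, MeasurableSet[𝒜] A → ∀ φ ∈ Φ,
    ∫ x in A ∩ B, F x * conj (φ x) ∂μ = 0

theorem int_mul {F : Ω → ℂ} (hF : Integrable F μ) {φ : Ω → ℂ} (hφ : UF μ φ) :
    Integrable (fun x => F x * conj (φ x)) μ := by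
  refine hF.mul_bdd (c := 1) (Complex.continuous_conj.measurable.comp hφ.1).aestronglyMeasurable ?_
  filter_upwards [hφ.2] with x hx
  rw [Complex.norm_conj, hx]

theorem Gd_univ [IsProbabilityMeasure μ] {𝒜 : SA Ω} {Φ : Set (Ω → ℂ)} {F : Ω → ℂ} (h𝒜 : Lm 𝒜) (hΦ : Grp μ Φ)
    (hF : Integrable F μ) (h : ∀ φ ∈ Φ, μ[fun x => F x * conj (φ x)|𝒜] =ᵐ[μ] 0) :
    Gd μ 𝒜 Φ F Set.univ := by
  refine ⟨MeasurableSet.univ, fun A hA φ hφ => ?_⟩
  rw [Set.inter_univ, ← setIntegral_condExp (m := 𝒜) h𝒜 (int_mul hF (hΦ.uf φ hφ)) hA]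
  have h1 : ∫ x in A, (μ[fun x => F x * conj (φ x)|𝒜]) x ∂μ = ∫ x in A, (0 : ℂ) ∂μ := by
    refine setIntegral_congr_ae (h𝒜 A hA) ?_
    filter_upwards [h φ hφ] with x hx _
    exact hx
  rw [h1]
  simp

theorem Gd_left {𝒜 : SA Ω} {Φ : Set (Ω → ℂ)} {F : Ω → ℂ} (h𝒜 : Lm 𝒜) {B A : Set Ω}
    (hB : Gd μ 𝒜 Φ F B) (hA : MeasurableSet[𝒜] A) : Gd μ 𝒜 Φ F (A ∩ B) := by
  refine ⟨(h𝒜 A hA).inter hB.1, fun A' hA' φ hφ => ?_⟩
  rw [← Set.inter_assoc]
  exact hB.2 _ (MeasurableSet.inter hA' hA) φ hφ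

theorem Gd_right {𝒜 : SA Ω} {Φ : Set (Ω → ℂ)} {F : Ω → ℂ} (h𝒜 : Lm 𝒜) (hΦ : Grp μ Φ)
    (hF : Integrable F μ) {B : Set Ω} (hB : Gd μ 𝒜 Φ F B) {φ₁ : Ω → ℂ} (hφ₁ : φ₁ ∈ Φ)
    {K : Set ℂ} (hK : MeasurableSet K) : Gd μ 𝒜 Φ F ((φ₁ ⁻¹' K) ∩ B) := by
  have h1 := hΦ.uf φ₁ hφ₁
  refine ⟨(h1.1 hK).inter hB.1, fun A hA φ hφ => ?_⟩
  have hAB : MeasurableSet (A ∩ B) := (h𝒜 A hA).inter hB.1
  have hGi := int_mul hF (hΦ.uf φ hφ)
  have h2 := fc_set (μ := μ) (G := (A ∩ B).indicator fun x => F x * conj (φ x))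
    (hGi.indicator hAB) h1 (by
      intro k
      obtain ⟨φ', hφ', he⟩ := zpow_mem hΦ hφ hφ₁ k
      have h3 : ∫ x, (A ∩ B).indicator (fun x => F x * conj (φ x)) x * φ₁ x ^ k ∂μ =
          ∫ x, (A ∩ B).indicator (fun x => F x * conj (φ' x)) x ∂μ := by
        apply integral_congr_ae
        filter_upwards [he] with x hx
        by_cases hxAB : x ∈ A ∩ B
        · rw [Set.indicator_of_mem hxAB, Set.indicator_of_mem hxAB, hx]
          ring
        · rw [Set.indicator_of_notMem hxAB, Set.indicator_of_notMem hxAB, zero_mul]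
      rw [h3, integral_indicator hAB]
      exact hB.2 A hA φ' hφ') hK
  rw [setIntegral_indicator hAB] at h2
  have h4 : A ∩ (φ₁ ⁻¹' K ∩ B) = φ₁ ⁻¹' K ∩ (A ∩ B) := by
    ext x
    simp only [Set.mem_inter_iff]
    tauto
  rw [h4]
  exact h2

end main

theorem st_DNS : ST_DNS := by
  classical
  intro Ω m0 μ _ 𝒜 Φ F h𝒜 hΦ hF hAM h
  have hle : Lm (jo 𝒜 (sg Φ)) := lm_jo h𝒜 fun φ hφ => (hΦ.uf φ hφ).1
  have huniv := Gd_univ h𝒜 hΦ hF h
  have hF0 : ∫ x, F x ∂μ = 0 := by
    have h1 := huniv.2 Set.univ MeasurableSet.univ _ hΦ.one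
    simpa using h1
  -- the generating sigma algebras
  set m : Option (Ω → ℂ) → MeasurableSpace Ω := fun i => match i with
    | none => 𝒜
    | some φ => MeasurableSpace.comap φ (inferInstance : MeasurableSpace ℂ) with hm
  set S : Set (Option (Ω → ℂ)) := {i | ∀ φ, i = some φ → φ ∈ Φ} with hS
  have hsup : @LE.le (MeasurableSpace Ω) _ (jo 𝒜 (sg Φ)) (⨆ i ∈ S, m i) := by
    refine sup_le ?_ (iSup₂_le fun φ hφ => ?_)
    · exact le_iSup₂ (f := fun i (_ : i ∈ S) => m i) none (by simp [hS])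
    · exact le_iSup₂ (f := fun i (_ : i ∈ S) => m i) (some φ) (by simpa [hS] using hφ)
  have hgd : ∀ (t : Finset (Option (Ω → ℂ))) (g : Option (Ω → ℂ) → Set Ω), (↑t ⊆ S) →
      (∀ i ∈ t, MeasurableSet[m i] (g i)) → Gd μ 𝒜 Φ F (⋂ i ∈ t, g i) := by
    intro t g
    induction t using Finset.induction_on with
    | empty =>
      intro _ _
      simpa using huniv
    | insert i t hi ih =>
      intro hS' hg
      have h1 := ih (fun j hj => hS' (by simpa using Or.inr hj))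
        (fun j hj => hg j (Finset.mem_insert_of_mem hj))
      rw [Finset.set_biInter_insert]
      have h2 : MeasurableSet[m i] (g i) := hg i (Finset.mem_insert_self _ _)
      have h3 : i ∈ S := hS' (by simp)
      rcases i with _ | φ
      · exact Gd_left h𝒜 h1 h2
      · obtain ⟨K, hK, hK'⟩ := h2
        rw [← hK']
        exact Gd_right h𝒜 hΦ hF h1 (h3 φ rfl) hK
  have hmle : (⨆ i ∈ S, m i) ≤ m0 := by
    refine iSup₂_le fun i hi => ?_
    rcases i with _ | φ
    · exact h𝒜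
    · exact ((hΦ.uf φ (hi φ rfl)).1).comap_le
  have hall : ∀ B : Set Ω, MeasurableSet[⨆ i ∈ S, m i] B → ∫ x in B, F x ∂μ = 0 := by
    intro B hB
    refine MeasurableSpace.induction_on_inter (m := ⨆ i ∈ S, m i)
      (C := fun B _ => ∫ x in B, F x ∂μ = 0)
      (s := piiUnionInter (fun n => {s | MeasurableSet[m n] s}) S)
      (generateFrom_piiUnionInter_measurableSet m S).symm
      (isPiSystem_piiUnionInter _ (fun i => @MeasurableSpace.isPiSystem_measurableSet Ω (m i)) S)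
      ?_ ?_ ?_ ?_ B hB
    · simp
    · rintro B ⟨t, ht, g, hg, rfl⟩
      have h1 := (hgd t g ht hg).2 Set.univ MeasurableSet.univ _ hΦ.one
      simpa using h1
    · intro B hBm hB0
      have h1 := integral_add_compl (hmle B hBm) hF
      rw [hB0, hF0, zero_add] at h1
      exact h1
    · intro B hd hBm hB0
      have h1 := hasSum_integral_iUnion (μ := μ) (f := F) (s := B)
        (fun i => hmle _ (hBm i)) hd hF.integrableOn
      have h2 : (fun i => ∫ x in B i, F x ∂μ) = fun _ : ℕ => (0 : ℂ) := funext hB0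
      rw [h2] at h1
      exact h1.unique hasSum_zero
  refine ae_eq_of_forall_setIntegral_eq_of_sigmaFinite' (m := jo 𝒜 (sg Φ)) hle
    (fun s _ _ => hF.integrableOn) (fun s _ _ => (integrable_zero _ _ _).integrableOn) ?_ hAM
    ⟨fun _ => 0, stronglyMeasurable_const, Eventually.of_forall fun _ => rfl⟩
  intro s hs _
  rw [hall s (hsup s hs)]
  simp

end Pool.Agent.Helper96.TWR
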