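import Pool.Agent.Helper98.TW.Stmts

/-! PFC: conditional expectations and sigma algebras under measure preserving maps
(MP_7a8f48_an). -/

open MeasureTheory Filter Topology Finset

namespace Pool.Agent.Helper96.TWR

open Pool.Agent.Helper98.TW

variable {Ω Ω' : Type} [m0 : MeasurableSpace Ω] [m0' : MeasurableSpace Ω']

theorem cm_le {π : Ω → Ω'} (hπ : Measurable π) {𝒜 : SA Ω'} (h𝒜 : Lm 𝒜) : Lm (cm π 𝒜) := by
  have h1 : @LE.le (MeasurableSpace Ω') _ 𝒜 m0' := h𝒜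
  show MeasurableSpace.comap π 𝒜 ≤ m0
  exact (MeasurableSpace.comap_mono h1).trans hπ.comap_le

/-- measurability of compositions -/
theorem AM_comp {μ : Measure Ω} {μ' : Measure Ω'} {π : Ω → Ω'} (hπ : MeasurePreserving π μ μ')
    {𝒜 : SA Ω'} {F : Ω' → ℂ} (hF : AM μ' 𝒜 F) : AM μ (cm π 𝒜) (fun x => F (π x)) := by
  obtain ⟨F₀, hF₀, hF₁⟩ := hF
  refine ⟨fun x => F₀ (π x), ?_, hπ.quasiMeasurePreserving.ae hF₁⟩
  exact StronglyMeasurable.comp_measurable hF₀ (@comap_measurable Ω Ω' 𝒜 π)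

theorem AM_factor {μ : Measure Ω} {μ' : Measure Ω'} {π : Ω → Ω'}
    {𝒜 : SA Ω'} (h𝒜 : Lm 𝒜) {G : Ω → ℂ} (hG : AM μ (cm π 𝒜) G) :
    ∃ F : Ω' → ℂ, Measurable F ∧ AM μ' 𝒜 F ∧ G =ᵐ[μ] fun x => F (π x) := by
  obtain ⟨G₀, hG₀, hG₁⟩ := hG
  obtain ⟨F, hF, hF'⟩ := StronglyMeasurable.exists_eq_measurable_comp
    (mY := (𝒜 : MeasurableSpace Ω')) (f := π) (g := G₀) hG₀
  refine ⟨F, ?_, ⟨F, hF, Eventually.of_forall fun _ => rfl⟩, ?_⟩
  · exact (hF.mono h𝒜).measurable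
  · filter_upwards [hG₁] with x hx
    rw [hx, hF']
    rfl

end Pool.Agent.Helper96.TWR

namespace Pool.Agent.Helper96.TWR

open Pool.Agent.Helper98.TW

theorem st_PFC : ST_PFC := by
  intro Ω Ω' m0 m0' μ hμ μ' hμ' π 𝒜 hπ h𝒜
  have hle : Lm (cm π 𝒜) := cm_le hπ.measurable h𝒜
  refine ⟨?_, ?_, ?_⟩
  · intro F hF
    have hF' : Integrable (fun x => F (π x)) μ := hπ.integrable_comp_of_integrable hF
    have hEi : Integrable (fun x => (μ'[F|𝒜]) (π x)) μ :=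
      hπ.integrable_comp_of_integrable integrable_condExp
    refine (ae_eq_condExp_of_forall_setIntegral_eq (m := cm π 𝒜) hle hF'
      (fun s _ _ => hEi.integrableOn) ?_ ?_).symm
    · intro s hs _
      obtain ⟨t, ht, rfl⟩ := hs
      have ht' : MeasurableSet t := h𝒜 t ht
      have e1 : ∫ x in π ⁻¹' t, (μ'[F|𝒜]) (π x) ∂μ = ∫ y in t, (μ'[F|𝒜]) y ∂μ' := by
        rw [← hπ.map_eq, setIntegral_map ht' ?_ hπ.measurable.aemeasurable]
        rw [hπ.map_eq]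
        exact integrable_condExp.aestronglyMeasurable
      have e2 : ∫ x in π ⁻¹' t, F (π x) ∂μ = ∫ y in t, F y ∂μ' := by
        rw [← hπ.map_eq, setIntegral_map ht' ?_ hπ.measurable.aemeasurable]
        rw [hπ.map_eq]
        exact hF.aestronglyMeasurable
      rw [e1, e2]
      exact setIntegral_condExp (m := 𝒜) h𝒜 hF ht
    · exact AM_comp hπ (stronglyMeasurable_condExp.aestronglyMeasurable)
  · intro F hF
    refine ⟨fun h => ?_, AM_comp hπ⟩
    obtain ⟨F₀, hF₀m, hF₀, hF₁⟩ := AM_factor (μ' := μ') h𝒜 h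
    have h1 : F =ᵐ[μ'] F₀ := by
      obtain ⟨F₂, hF₂, hF₂e⟩ := hF
      have h2 : F₂ =ᵐ[μ'] F₀ := by
        rw [← hπ.map_eq]
        have hm : MeasurableSet {y | F₂ y = F₀ y} := measurableSet_eq_fun hF₂.measurable hF₀m
        refine (ae_map_iff hπ.measurable.aemeasurable hm).2 ?_
        filter_upwards [hF₁, hπ.quasiMeasurePreserving.ae hF₂e] with x hx1 hx2
        rw [← hx2, hx1]
      exact hF₂e.trans h2
    exact AEStronglyMeasurable.congr hF₀ h1.symm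
  · intro G hG
    exact AM_factor h𝒜 hG

end Pool.Agent.Helper96.TWR
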