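import Pool.Agent.Helper98.TW.Basic

/-! SPN: modules which are generated by finitely many bounded functions (MP_7a8f48_an). -/

open MeasureTheory Filter Topology Finset
open scoped ComplexConjugate

namespace Pool.Agent.Helper96.TWR

open Pool.Agent.Helper98.TW

section spn

variable {Ω : Type} [m0 : MeasurableSpace Ω] {μ : Measure Ω}

/-- bounded `C`-measurable functions -/
def BC (μ : Measure Ω) (C : SA Ω) (a : Ω → ℂ) : Prop :=
  AM μ C a ∧ ∃ B : ℝ, ∀ᵐ x ∂μ, ‖a x‖ ≤ B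

theorem BC.const {C : SA Ω} (c : ℂ) : BC μ C (fun _ => c) :=
  ⟨am_const c, ‖c‖, Eventually.of_forall fun _ => le_rfl⟩

theorem BC.add {C : SA Ω} {a b : Ω → ℂ} (ha : BC μ C a) (hb : BC μ C b) :
    BC μ C (fun x => a x + b x) := by
  obtain ⟨ha, A, hA⟩ := ha
  obtain ⟨hb, B, hB⟩ := hb
  refine ⟨am_add ha hb, A + B, ?_⟩
  filter_upwards [hA, hB] with x h1 h2
  exact (norm_add_le _ _).trans (add_le_add h1 h2)

theorem BC.mul {C : SA Ω} {a b : Ω → ℂ} (ha : BC μ C a) (hb : BC μ C b) :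
    BC μ C (fun x => a x * b x) := by
  obtain ⟨ha, A, hA⟩ := ha
  obtain ⟨hb, B, hB⟩ := hb
  refine ⟨am_mul ha hb, A * B, ?_⟩
  filter_upwards [hA, hB] with x h1 h2
  rw [norm_mul]
  exact mul_le_mul h1 h2 (norm_nonneg _) ((norm_nonneg _).trans h1)

theorem BC.conj {C : SA Ω} {a : Ω → ℂ} (ha : BC μ C a) : BC μ C (fun x => conj (a x)) := by
  obtain ⟨ha, A, hA⟩ := ha
  refine ⟨am_conj ha, A, ?_⟩
  filter_upwards [hA] with x h1
  rwa [Complex.norm_conj]

theorem BC.sum {C : SA Ω} {ι : Type} (s : Finset ι) {a : ι → Ω → ℂ}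
    (ha : ∀ i ∈ s, BC μ C (a i)) : BC μ C (fun x => ∑ i ∈ s, a i x) := by
  classical
  induction s using Finset.induction_on with
  | empty => simpa using BC.const (μ := μ) (C := C) 0
  | insert i s hi ih =>
    have h1 := (ha i (mem_insert_self _ _)).add (ih fun j hj => ha j (mem_insert_of_mem hj))
    simpa only [sum_insert hi] using h1

/-- the combinations with bounded coefficients -/
noncomputable def sp0 (μ : Measure Ω) (C : SA Ω) {k : ℕ} (w : Fin k → Lp ℂ 2 μ) :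
    Submodule ℂ (Lp ℂ 2 μ) where
  carrier := {G | ∃ a : Fin k → Ω → ℂ, (∀ i, BC μ C (a i)) ∧
    ∀ᵐ x ∂μ, G x = ∑ i, a i x * w i x}
  zero_mem' := by
    refine ⟨fun _ _ => 0, fun _ => BC.const 0, ?_⟩
    filter_upwards [Lp.coeFn_zero ℂ 2 μ] with x hx
    rw [hx]
    simp
  add_mem' := by
    rintro G H ⟨a, ha, hG⟩ ⟨b, hb, hH⟩
    refine ⟨fun i x => a i x + b i x, fun i => (ha i).add (hb i), ?_⟩
    filter_upwards [Lp.coeFn_add G H, hG, hH] with x h1 h2 h3
    rw [h1, Pi.add_apply, h2, h3, ← sum_add_distrib]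
    exact sum_congr rfl fun i _ => by ring
  smul_mem' := by
    rintro c G ⟨a, ha, hG⟩
    refine ⟨fun i x => c * a i x, fun i => (BC.const c).mul (ha i), ?_⟩
    filter_upwards [Lp.coeFn_smul c G, hG] with x h1 h2
    rw [h1, Pi.smul_apply, h2, smul_eq_mul, mul_sum]
    exact sum_congr rfl fun i _ => by ring

theorem exists_mul {c : Ω → ℂ} (hc : AEStronglyMeasurable c μ) {B : ℝ}
    (hB : ∀ᵐ x ∂μ, ‖c x‖ ≤ B) (G : Lp ℂ 2 μ) :
    ∃ G' : Lp ℂ 2 μ, ∀ᵐ x ∂μ, G' x = c x * G x := by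
  have h1 : MemLp (fun x => c x * G x) 2 μ := by
    refine MemLp.of_le_mul (c := B) (Lp.memLp G) (hc.mul (Lp.aestronglyMeasurable G)) ?_
    filter_upwards [hB] with x hx
    rw [norm_mul]
    exact mul_le_mul_of_nonneg_right hx (norm_nonneg _)
  exact ⟨h1.toLp _, h1.coeFn_toLp⟩

theorem am_ae {C : SA Ω} (hC : Lm C) {a : Ω → ℂ} (ha : AM μ C a) : AEStronglyMeasurable a μ :=
  AEStronglyMeasurable.mono hC ha

theorem C0_sp {C : SA Ω} (hC : Lm C) {k : ℕ} (w : Fin k → Lp ℂ 2 μ) :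
    C0 μ C (sp0 μ C w).topologicalClosure := by
  refine ⟨Submodule.isClosed_topologicalClosure _, ?_⟩
  rintro G hG c hc ⟨B, hB⟩ G' hG'
  have hG1 : G ∈ closure (sp0 μ C w : Set (Lp ℂ 2 μ)) := hG
  show G' ∈ closure (sp0 μ C w : Set (Lp ℂ 2 μ))
  rw [Metric.mem_closure_iff] at hG1 ⊢
  intro ε hε
  have hB0 : ∀ᵐ x ∂μ, ‖c x‖ ≤ |B| + 1 := by
    filter_upwards [hB] with x hx
    exact hx.trans ((le_abs_self B).trans (by linarith))
  have hBp : 0 < |B| + 1 := by positivity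
  obtain ⟨F, hF, hGF⟩ := hG1 (ε / (|B| + 1)) (by positivity)
  obtain ⟨F', hF'⟩ := exists_mul (am_ae hC hc) hB0 F
  obtain ⟨a, ha, hFa⟩ := hF
  refine ⟨F', ⟨fun i x => c x * a i x, fun i => BC.mul ⟨hc, B, hB⟩ (ha i), ?_⟩, ?_⟩
  · filter_upwards [hF', hFa] with x h1 h2
    rw [h1, h2, mul_sum]
    exact sum_congr rfl fun i _ => by ring
  · rw [dist_eq_norm] at hGF ⊢
    have h1 : ‖G' - F'‖ ≤ (|B| + 1) * ‖G - F‖ := by
      refine Lp.norm_le_mul_norm_of_ae_le_mul ?_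
      filter_upwards [Lp.coeFn_sub G' F', Lp.coeFn_sub G F, hG', hF', hB0] with x e1 e2 e3 e4 e5
      rw [e1, e2, Pi.sub_apply, Pi.sub_apply, e3, e4, smul_eq_mul, ← mul_sub, norm_mul]
      exact mul_le_mul_of_nonneg_right e5 (norm_nonneg _)
    refine h1.trans_lt ?_
    rw [lt_div_iff₀ hBp] at hGF
    linarith

theorem CM_sp {C : SA Ω} {R R' : Ω → Ω} (hS : Sys μ R R') (hI : IA μ C R R') {k : ℕ}
    (w : Fin k → Lp ℂ 2 μ) (c : Fin k → Fin k → Ω → ℂ)
    (hcB : ∃ B : ℝ, ∀ i j, ∀ᵐ x ∂μ, ‖c i j x‖ ≤ B) (hc : ∀ i j, AM μ C (c i j))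
    (hw : ∀ i, ∀ᵐ x ∂μ, w i (R x) = ∑ j, c i j x * w j x) :
    CM μ C R (fun _ => 1) (sp0 μ C w).topologicalClosure := by
  refine { toC0 := C0_sp hI.1 w, comp := ?_ }
  intro G hG G' hG'
  have hG1 : G ∈ closure (sp0 μ C w : Set (Lp ℂ 2 μ)) := hG
  show G' ∈ closure (sp0 μ C w : Set (Lp ℂ 2 μ))
  have hG2 : G' = Lp.compMeasurePreserving R hS.mp G := by
    apply Lp.ext
    filter_upwards [hG', Lp.coeFn_compMeasurePreserving G hS.mp] with x h1 h2
    rw [h1, h2]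
    simp
  rw [Metric.mem_closure_iff] at hG1 ⊢
  intro ε hε
  obtain ⟨F, hF, hGF⟩ := hG1 ε hε
  refine ⟨Lp.compMeasurePreserving R hS.mp F, ?_, ?_⟩
  · obtain ⟨a, ha, hFa⟩ := hF
    obtain ⟨B, hB⟩ := hcB
    refine ⟨fun j x => ∑ i, a i (R x) * c i j x, fun j => ?_, ?_⟩
    · refine BC.sum _ fun i _ => BC.mul ?_ ⟨hc i j, B, hB i j⟩
      obtain ⟨h1, A, hA⟩ := ha i
      exact ⟨(hI.2 _ h1).1, A, hS.mp.quasiMeasurePreserving.ae hA⟩
    · have hwall : ∀ᵐ x ∂μ, ∀ i, w i (R x) = ∑ j, c i j x * w j x := ae_all_iff.2 hw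
      filter_upwards [Lp.coeFn_compMeasurePreserving F hS.mp,
        hS.mp.quasiMeasurePreserving.ae hFa, hwall] with x h1 h2 h3
      rw [h1, Function.comp_apply, h2]
      simp only [h3, mul_sum, sum_mul]
      rw [sum_comm]
      exact sum_congr rfl fun j _ => sum_congr rfl fun i _ => by ring
  · rw [hG2, dist_eq_norm, ← map_sub, Lp.norm_compMeasurePreserving, ← dist_eq_norm]
    exact hGF

theorem mem_sp (C : SA Ω) {k : ℕ} (w : Fin k → Lp ℂ 2 μ) (i : Fin k) : w i ∈ sp0 μ C w := by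
  classical
  refine ⟨fun j _ => if j = i then 1 else 0, fun j => BC.const _, ?_⟩
  refine Eventually.of_forall fun x => ?_
  simp

theorem sp_le {C : SA Ω} (hC : Lm C) {k : ℕ} (w : Fin k → Lp ℂ 2 μ)
    (E' : Submodule ℂ (Lp ℂ 2 μ)) (hE' : C0 μ C E') (hw : ∀ i, w i ∈ E') :
    (sp0 μ C w).topologicalClosure ≤ E' := by
  refine Submodule.topologicalClosure_minimal _ ?_ hE'.closed
  rintro G ⟨a, ha, hG⟩
  have h1 : ∀ i, ∃ H : Lp ℂ 2 μ, ∀ᵐ x ∂μ, H x = a i x * w i x := fun i => by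
    obtain ⟨h1, A, hA⟩ := ha i
    exact exists_mul (am_ae hC h1) hA (w i)
  choose H hH using h1
  have h2 : ∀ i, H i ∈ E' := fun i => hE'.mul (w i) (hw i) (a i) (ha i).1 (ha i).2 (H i) (hH i)
  have h3 : G = ∑ i, H i := by
    apply Lp.ext
    have h4 : ∀ᵐ x ∂μ, ∀ i, H i x = a i x * w i x := ae_all_iff.2 hH
    filter_upwards [hG, h4, Lp.coeFn_finsetSum (Finset.univ : Finset (Fin k)) H] with x e1 e2 e3
    rw [e1, e3]
    simp [e2]
  rw [h3]
  exact E'.sum_mem fun i _ => h2 i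

/-- matrices of the form `A K A*` of size larger than that of `K` are not close to `1` -/
theorem rank_aux {m k : ℕ} (hmk : k < m) (A : Fin m → Fin k → ℂ) (K : Fin k → Fin k → ℂ)
    (F : Fin m → Fin m → ℂ)
    (hF : ∀ a b, F a b = ∑ i, ∑ j, A a i * conj (A b j) * K i j)
    (h1 : ∑ a, ∑ b, ‖F a b - if a = b then 1 else 0‖ < 1) : False := by
  classical
  -- a vector in the kernel
  obtain ⟨v, hv0, hv⟩ : ∃ v : Fin m → ℂ, v ≠ 0 ∧ ∀ j, ∑ b, conj (A b j) * v b = 0 := by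
    let L : (Fin m → ℂ) →ₗ[ℂ] (Fin k → ℂ) :=
      Matrix.mulVecLin (Matrix.of fun (j : Fin k) (b : Fin m) => conj (A b j))
    have h2 : LinearMap.ker L ≠ ⊥ := by
      apply LinearMap.ker_ne_bot_of_finrank_lt
      simpa using hmk
    obtain ⟨v, hv, hv0⟩ := Submodule.exists_mem_ne_zero_of_ne_bot h2
    refine ⟨v, hv0, fun j => ?_⟩
    have h3 : L v = 0 := hv
    have h4 := congrFun h3 j
    simpa [L, Matrix.mulVec, dotProduct] using h4
  have hFv : ∀ a, ∑ b, F a b * v b = 0 := by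
    intro a
    have h2 : ∑ b, F a b * v b = ∑ i, ∑ j, A a i * K i j * ∑ b, conj (A b j) * v b := by
      simp only [hF, sum_mul, mul_sum]
      rw [sum_comm]
      refine sum_congr rfl fun i _ => ?_
      rw [sum_comm]
      exact sum_congr rfl fun j _ => sum_congr rfl fun b _ => by ring
    rw [h2]
    simp [hv]
  have hm : 0 < m := by omega
  have : Nonempty (Fin m) := ⟨⟨0, hm⟩⟩
  obtain ⟨a₀, ha₀⟩ := Finite.exists_max fun a : Fin m => ‖v a‖
  have hpos : 0 < ‖v a₀‖ := by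
    obtain ⟨b, hb⟩ := Function.ne_iff.1 hv0
    exact lt_of_lt_of_le (norm_pos_iff.2 hb) (ha₀ b)
  have h3 : v a₀ = ∑ b, ((if a₀ = b then 1 else 0) - F a₀ b) * v b := by
    simp only [sub_mul, sum_sub_distrib, hFv a₀]
    simp
  have h4 : ‖v a₀‖ ≤ (∑ b, ‖F a₀ b - if a₀ = b then 1 else 0‖) * ‖v a₀‖ := by
    conv_lhs => rw [h3]
    rw [sum_mul]
    refine (norm_sum_le _ _).trans (sum_le_sum fun b _ => ?_)
    rw [norm_mul, norm_sub_rev]
    exact mul_le_mul_of_nonneg_left (ha₀ b) (norm_nonneg _)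
  have h5 : ∑ b, ‖F a₀ b - if a₀ = b then 1 else 0‖ < 1 := by
    refine lt_of_le_of_lt ?_ h1
    exact single_le_sum (f := fun a => ∑ b, ‖F a b - if a = b then 1 else 0‖)
      (fun a _ => sum_nonneg fun b _ => norm_nonneg _) (mem_univ a₀)
  nlinarith

theorem int_norm_ce_le [IsProbabilityMeasure μ] {C : SA Ω} (hC : Lm C) {F : Ω → ℂ} :
    ∫ x, ‖(μ[F|C]) x‖ ∂μ ≤ ∫ x, ‖F x‖ ∂μ := by
  have h1 : ∫ x, ‖(μ[F|C]) x‖ ∂μ ≤ ∫ x, (μ[fun x => ‖F x‖|C]) x ∂μ :=
    integral_mono_ae integrable_condExp.norm integrable_condExp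
      (norm_condExp_le (μ := μ) (m := C) F)
  rwa [integral_condExp (m := C) hC] at h1

theorem mul_conj_int {F G : Ω → ℂ} (hF : MemLp F 2 μ) (hG : MemLp G 2 μ) :
    Integrable (fun x => F x * conj (G x)) μ := by
  have h1 : MemLp (fun x => conj (G x)) 2 μ := hG.star
  exact hF.integrable_mul h1

/-- Cauchy-Schwarz -/
theorem cs_lp (F G : Lp ℂ 2 μ) : ∫ x, ‖F x * conj (G x)‖ ∂μ ≤ ‖F‖ * ‖G‖ := by
  have hn : ∀ H : Lp ℂ 2 μ, ∃ H' : Lp ℂ 2 μ, ‖H'‖ = ‖H‖ ∧ ∀ᵐ x ∂μ, H' x = (‖H x‖ : ℂ) := by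
    intro H
    have h1 : MemLp (fun x => (‖H x‖ : ℂ)) 2 μ := (Lp.memLp H).norm.ofReal
    refine ⟨h1.toLp _, ?_, h1.coeFn_toLp⟩
    rw [Lp.norm_toLp, Lp.norm_def]
    congr 1
    refine eLpNorm_congr_norm_ae (Eventually.of_forall fun x => ?_)
    simp
  obtain ⟨F', hF1, hF2⟩ := hn F
  obtain ⟨G', hG1, hG2⟩ := hn G
  have h2 : (inner ℂ G' F' : ℂ) = ((∫ x, ‖F x * conj (G x)‖ ∂μ : ℝ) : ℂ) := by
    rw [L2.inner_def, ← integral_complex_ofReal]
    apply integral_congr_ae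
    filter_upwards [hF2, hG2] with x h1 h2
    rw [h1, h2, RCLike.inner_apply, norm_mul, Complex.norm_conj]
    push_cast
    rw [Complex.conj_ofReal]
  have h3 := norm_inner_le_norm (𝕜 := ℂ) G' F'
  rw [h2, hF1, hG1, Complex.norm_real, mul_comm] at h3
  exact (le_abs_self _).trans h3

end spn

theorem st_SPN : ST_SPN := by
  classical
  intro Ω m0 μ _ R R' C k w c hS hI hwB hcB hc hw
  refine ⟨(sp0 μ C w).topologicalClosure, CM_sp hS hI w c hcB hc hw,
    fun i => Submodule.le_topologicalClosure _ (mem_sp C w i), ?_,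
    fun E' hE' hw' => sp_le hI.1 w E' hE' hw'⟩
  intro m e he hON
  by_contra hmk
  push Not at hmk
  have hm0 : 0 < m := by omega
  -- the norms of the elements of the orthonormal family
  have hij : ∀ F G : Lp ℂ 2 μ, Integrable (fun x => F x * conj (G x)) μ := fun F G =>
    mul_conj_int (Lp.memLp F) (Lp.memLp G)
  have hne : ∀ a, ‖e a‖ = 1 := by
    intro a
    have h1 : (inner ℂ (e a) (e a) : ℂ) = 1 := by
      rw [L2.inner_def, ← integral_condExp (m := C) hI.1]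
      have h2 : ∫ x, (μ[fun x => (inner ℂ (e a x) (e a x) : ℂ)|C]) x ∂μ = ∫ _, (1 : ℂ) ∂μ := by
        apply integral_congr_ae
        filter_upwards [hON a a] with x hx
        rw [hx, if_pos rfl]
      rw [h2]
      simp
    have h2 : (‖e a‖ : ℂ) ^ 2 = 1 := by
      rw [← h1, inner_self_eq_norm_sq_to_K]
      rfl
    have h3 : ‖e a‖ ^ 2 = 1 := by exact_mod_cast h2
    nlinarith [norm_nonneg (e a)]
  -- approximation
  obtain ⟨ε, hε⟩ : ∃ ε : ℝ, ε = 1 / (4 * (m : ℝ) ^ 2) := ⟨_, rfl⟩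
  have hmR : (1 : ℝ) ≤ m := by exact_mod_cast hm0
  have hε0 : 0 < ε := by
    rw [hε]
    positivity
  have hε1 : ε ≤ 1 / 4 := by
    rw [hε]
    apply one_div_le_one_div_of_le (by norm_num)
    nlinarith
  have happ : ∀ a, ∃ F : Lp ℂ 2 μ, F ∈ sp0 μ C w ∧ ‖e a - F‖ < ε := by
    intro a
    have h1 : e a ∈ closure (sp0 μ C w : Set (Lp ℂ 2 μ)) := he a
    rw [Metric.mem_closure_iff] at h1
    obtain ⟨F, hF, hd⟩ := h1 ε hε0
    exact ⟨F, hF, by rwa [dist_eq_norm] at hd⟩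
  choose F hF hFe using happ
  choose A hA hFA using hF
  have hFn : ∀ a, ‖F a‖ ≤ 1 + ε := by
    intro a
    have h1 : ‖F a‖ ≤ ‖e a‖ + ‖e a - F a‖ := by
      have : F a = e a - (e a - F a) := by abel
      calc ‖F a‖ = ‖e a - (e a - F a)‖ := by rw [← this]
        _ ≤ ‖e a‖ + ‖e a - F a‖ := norm_sub_le _ _
    rw [hne a] at h1
    linarith [hFe a]
  -- the Gram matrices
  obtain ⟨K, hK⟩ : ∃ K : Fin k → Fin k → Ω → ℂ, K = fun i j =>
      μ[fun x => w i x * conj (w j x)|C] := ⟨_, rfl⟩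
  obtain ⟨Γ, hΓ⟩ : ∃ Γ : Fin m → Fin m → Ω → ℂ, Γ = fun a b =>
      μ[fun x => F a x * conj (F b x)|C] := ⟨_, rfl⟩
  have hΓA : ∀ a b, ∀ᵐ x ∂μ, Γ a b x = ∑ i, ∑ j, A a i x * conj (A b j x) * K i j x := by
    intro a b
    have h1 : (fun x => F a x * conj (F b x)) =ᵐ[μ]
        ∑ z : Fin k × Fin k, fun x => (A a z.1 x * conj (A b z.2 x)) *
          (w z.1 x * conj (w z.2 x)) := by
      filter_upwards [hFA a, hFA b] with x e1 e2
      rw [Finset.sum_apply, e1, e2, map_sum, sum_mul_sum, ← univ_product_univ, sum_product]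
      refine sum_congr rfl fun i _ => sum_congr rfl fun j _ => ?_
      rw [map_mul]
      ring
    have h2 : ∀ z : Fin k × Fin k, BC μ C (fun x => A a z.1 x * conj (A b z.2 x)) := fun z =>
      (hA a z.1).mul (hA b z.2).conj
    have h3 : ∀ z : Fin k × Fin k, Integrable (fun x => (A a z.1 x * conj (A b z.2 x)) *
        (w z.1 x * conj (w z.2 x))) μ := by
      intro z
      obtain ⟨h4, B, hB⟩ := h2 z
      exact (hij (w z.1) (w z.2)).bdd_mul (c := B) (am_ae hI.1 h4) hB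
    have h4 : μ[∑ z : Fin k × Fin k, (fun x => (A a z.1 x * conj (A b z.2 x)) *
        (w z.1 x * conj (w z.2 x)))|C] =ᵐ[μ]
        ∑ z : Fin k × Fin k, μ[fun x => (A a z.1 x * conj (A b z.2 x)) *
          (w z.1 x * conj (w z.2 x))|C] := condExp_finsetSum (fun z _ => h3 z) C
    have h5 : ∀ z : Fin k × Fin k, μ[fun x => (A a z.1 x * conj (A b z.2 x)) *
        (w z.1 x * conj (w z.2 x))|C] =ᵐ[μ] fun x => (A a z.1 x * conj (A b z.2 x)) *
          K z.1 z.2 x := by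
      intro z
      have h6 := condExp_bilin_of_aestronglyMeasurable_left (m := C)
        (ContinuousLinearMap.mul ℝ ℂ) (h2 z).1 (h3 z) (hij (w z.1) (w z.2))
      rw [hK]
      exact h6
    have h6 : ∀ᵐ x ∂μ, ∀ z : Fin k × Fin k, (μ[fun x => (A a z.1 x * conj (A b z.2 x)) *
        (w z.1 x * conj (w z.2 x))|C]) x = (A a z.1 x * conj (A b z.2 x)) *
          K z.1 z.2 x := ae_all_iff.2 h5
    have h7 : Γ a b =ᵐ[μ] μ[∑ z : Fin k × Fin k, (fun x => (A a z.1 x * conj (A b z.2 x)) *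
        (w z.1 x * conj (w z.2 x)))|C] := by
      rw [hΓ]
      exact condExp_congr_ae h1
    filter_upwards [h7, h4, h6] with x e1 e2 e3
    rw [e1, e2, Finset.sum_apply, ← univ_product_univ, sum_product]
    exact sum_congr rfl fun i _ => sum_congr rfl fun j _ => e3 (i, j)
  -- the Gram matrix is close to the identity matrix
  have hΓi : ∀ a b, Integrable (Γ a b) μ := fun a b => by
    rw [hΓ]
    exact integrable_condExp
  have hcl : ∀ a b, ∫ x, ‖Γ a b x - if a = b then 1 else 0‖ ∂μ ≤ ε * (2 + ε) := by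
    intro a b
    have h1 : (fun x => Γ a b x - if a = b then (1 : ℂ) else 0) =ᵐ[μ]
        μ[fun x => F a x * conj (F b x) - e a x * conj (e b x)|C] := by
      have h2 := condExp_sub (hij (F a) (F b)) (hij (e a) (e b)) C
      have h3 := hON a b
      filter_upwards [h2, h3] with x e1 e2
      have h4 : (μ[fun x => F a x * conj (F b x) - e a x * conj (e b x)|C]) x =
          (μ[fun x => F a x * conj (F b x)|C]) x - (μ[fun x => e a x * conj (e b x)|C]) x := e1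
      have h5 : (μ[fun x => e a x * conj (e b x)|C]) x = if a = b then (1 : ℂ) else 0 := by
        rw [← e2]
        rfl
      rw [h4, h5, hΓ]
    have h2 : Integrable (fun x => F a x * conj (F b x) - e a x * conj (e b x)) μ :=
      (hij (F a) (F b)).sub (hij (e a) (e b))
    have h3 : ∫ x, ‖Γ a b x - if a = b then (1 : ℂ) else 0‖ ∂μ ≤
        ∫ x, ‖F a x * conj (F b x) - e a x * conj (e b x)‖ ∂μ := by
      refine le_trans (le_of_eq ?_) (int_norm_ce_le hI.1)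
      apply integral_congr_ae
      filter_upwards [h1] with x hx
      rw [hx]
    have h4 : ∫ x, ‖F a x * conj (F b x) - e a x * conj (e b x)‖ ∂μ ≤
        ∫ x, (‖(e a - F a) x * conj (F b x)‖ + ‖e a x * conj ((e b - F b) x)‖) ∂μ := by
      refine integral_mono_ae h2.norm ((hij (e a - F a) (F b)).norm.add
        (hij (e a) (e b - F b)).norm) ?_
      filter_upwards [Lp.coeFn_sub (e a) (F a), Lp.coeFn_sub (e b) (F b)] with x e1 e2
      show ‖F a x * conj (F b x) - e a x * conj (e b x)‖ ≤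
        ‖(e a - F a) x * conj (F b x)‖ + ‖e a x * conj ((e b - F b) x)‖
      rw [e1, e2, Pi.sub_apply, Pi.sub_apply]
      have h5 : F a x * conj (F b x) - e a x * conj (e b x) =
          -((e a x - F a x) * conj (F b x) + e a x * conj (e b x - F b x)) := by
        rw [map_sub]
        ring
      rw [h5, norm_neg]
      exact norm_add_le _ _
    have h5 : ∫ x, (‖(e a - F a) x * conj (F b x)‖ + ‖e a x * conj ((e b - F b) x)‖) ∂μ ≤
        ε * (1 + ε) + 1 * ε := by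
      rw [integral_add (hij (e a - F a) (F b)).norm (hij (e a) (e b - F b)).norm]
      refine add_le_add ((cs_lp _ _).trans ?_) ((cs_lp _ _).trans ?_)
      · exact mul_le_mul (hFe a).le (hFn b) (norm_nonneg _) hε0.le
      · rw [hne a]
        exact mul_le_mul_of_nonneg_left (hFe b).le zero_le_one
    calc _ ≤ _ := h3
      _ ≤ _ := h4
      _ ≤ _ := h5
      _ = ε * (2 + ε) := by ring
  -- a good point
  have hn : ∀ a b, Integrable (fun x => ‖Γ a b x - if a = b then (1 : ℂ) else 0‖) μ :=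
    fun a b => ((hΓi a b).sub (integrable_const _)).norm
  have hsumi : Integrable (fun x => ∑ a, ∑ b, ‖Γ a b x - if a = b then (1 : ℂ) else 0‖) μ :=
    integrable_finsetSum _ fun a _ => integrable_finsetSum _ fun b _ => hn a b
  have hsum : ∫ x, ∑ a, ∑ b, ‖Γ a b x - if a = b then (1 : ℂ) else 0‖ ∂μ < 1 := by
    rw [integral_finsetSum _ fun a _ => integrable_finsetSum _ fun b _ => hn a b]
    have h1 : ∀ a : Fin m, ∫ x, ∑ b, ‖Γ a b x - if a = b then (1 : ℂ) else 0‖ ∂μ ≤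
        m * (ε * (2 + ε)) := by
      intro a
      rw [integral_finsetSum _ fun b _ => hn a b]
      refine (sum_le_sum fun b _ => hcl a b).trans (le_of_eq ?_)
      simp
    have h2 : ∑ a : Fin m, ∫ x, ∑ b, ‖Γ a b x - if a = b then (1 : ℂ) else 0‖ ∂μ ≤
        m * (m * (ε * (2 + ε))) := by
      refine (sum_le_sum fun a _ => h1 a).trans (le_of_eq ?_)
      simp
    refine lt_of_le_of_lt h2 ?_
    have h3 : (m : ℝ) ^ 2 * ε = 1 / 4 := by
      rw [hε]
      have : (m : ℝ) ≠ 0 := by positivity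
      field_simp
    nlinarith
  have hex : ∃ x, (∀ a b, Γ a b x = ∑ i, ∑ j, A a i x * conj (A b j x) * K i j x) ∧
      ∑ a, ∑ b, ‖Γ a b x - if a = b then (1 : ℂ) else 0‖ < 1 := by
    have h1 : ∀ᵐ x ∂μ, ∀ a b, Γ a b x = ∑ i, ∑ j, A a i x * conj (A b j x) * K i j x :=
      ae_all_iff.2 fun a => ae_all_iff.2 fun b => hΓA a b
    by_contra hno
    push Not at hno
    have h2 : ∀ᵐ x ∂μ, (1 : ℝ) ≤ ∑ a, ∑ b, ‖Γ a b x - if a = b then (1 : ℂ) else 0‖ := by
      filter_upwards [h1] with x hx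
      exact hno x hx
    have h3 : (1 : ℝ) ≤ ∫ x, ∑ a, ∑ b, ‖Γ a b x - if a = b then (1 : ℂ) else 0‖ ∂μ := by
      have h4 := integral_mono_ae (integrable_const (1 : ℝ)) hsumi h2
      simpa using h4
    linarith
  obtain ⟨x, hx1, hx2⟩ := hex
  exact rank_aux hmk (fun a i => A a i x) (fun i j => K i j x) (fun a b => Γ a b x) hx1 hx2

end Pool.Agent.Helper96.TWR
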