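import Pool.Agent.Helper98.TW.Stmts

/-! TCA: continuity of measure preserving torus actions in `L²` (MP_7a8f48_an). -/

open MeasureTheory Filter Topology Finset
open scoped ComplexConjugate

namespace Pool.Agent.Helper96.TWR

open Pool.Agent.Helper98.TW
open Pool.Agent.Helper16.AZ (T mm)

theorem st_TCA : ST_TCA := by
  intro Y _ _ _ _ _ μ _ d V F hV hc hF
  let _ : MetricSpace Y := TopologicalSpace.metrizableSpaceMetric Y
  have hnn : ∀ t : T d, 0 ≤ ∫ y, ‖F (V t y) - F y‖ ^ 2 ∂μ := fun t =>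
    integral_nonneg fun y => by positivity
  rw [Metric.tendsto_nhds]
  intro ε hε
  have hF2 : MemLp F (ENNReal.ofReal 2) μ := by
    have : ENNReal.ofReal 2 = 2 := by norm_num
    rw [this]
    exact hF
  obtain ⟨g, hg, hgm⟩ := hF2.exists_boundedContinuous_integral_rpow_sub_le (by norm_num)
    (ε := ε / 16) (by positivity)
  have hg2 : ∫ y, ‖F y - g y‖ ^ 2 ∂μ ≤ ε / 16 := by
    simpa only [Real.rpow_two] using hg
  have hgm2 : MemLp g 2 μ := by
    have : ENNReal.ofReal 2 = 2 := by norm_num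
    rwa [this] at hgm
  -- uniform continuity
  set Θ : C(T d, C(Y, ℂ)) := ContinuousMap.curry ⟨fun z : T d × Y => g (V z.1 z.2),
    g.continuous.comp hc⟩ with hΘ
  obtain ⟨η, hη⟩ : ∃ η : ℝ, η = min 1 (ε / 8) := ⟨_, rfl⟩
  have hη0 : 0 < η := by
    rw [hη]
    positivity
  have hη1 : η ≤ 1 := hη ▸ min_le_left _ _
  have hη2 : η ≤ ε / 8 := hη ▸ min_le_right _ _
  have hcont : Tendsto Θ (𝓝 0) (𝓝 (Θ 0)) := Θ.continuous.tendsto 0
  filter_upwards [Metric.tendsto_nhds.1 hcont η hη0] with t ht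
  have hsup : ∀ y, ‖g (V t y) - g y‖ ≤ η := by
    intro y
    have h1 : dist (Θ t y) (Θ 0 y) ≤ dist (Θ t) (Θ 0) := ContinuousMap.dist_apply_le_dist y
    have h2 : Θ t y = g (V t y) := rfl
    have h3 : Θ 0 y = g y := by
      show g (V 0 y) = g y
      rw [hV.zero]
    rw [h2, h3, dist_eq_norm] at h1
    exact h1.trans ht.le
  rw [Real.dist_eq, sub_zero, abs_of_nonneg (hnn t)]
  have hmp := hV.mp t
  have hFV : MemLp (fun y => F (V t y)) 2 μ := hF.comp_measurePreserving hmp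
  have hgV : MemLp (fun y => g (V t y)) 2 μ := hgm2.comp_measurePreserving hmp
  have hFg : MemLp (fun y => F y - g y) 2 μ := hF.sub hgm2
  have i1 : Integrable (fun y => ‖F (V t y) - g (V t y)‖ ^ 2) μ :=
    (hFV.sub hgV).integrable_norm_pow (by norm_num)
  have i2 : Integrable (fun y => ‖g (V t y) - g y‖ ^ 2) μ :=
    (hgV.sub hgm2).integrable_norm_pow (by norm_num)
  have i3 : Integrable (fun y => ‖F y - g y‖ ^ 2) μ := hFg.integrable_norm_pow (by norm_num)
  have i0 : Integrable (fun y => ‖F (V t y) - F y‖ ^ 2) μ :=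
    (hFV.sub hF).integrable_norm_pow (by norm_num)
  have e1 : ∫ y, ‖F (V t y) - g (V t y)‖ ^ 2 ∂μ = ∫ y, ‖F y - g y‖ ^ 2 ∂μ := by
    have h1 : AEStronglyMeasurable (fun y => ‖F y - g y‖ ^ 2) (μ.map (V t)) := by
      rw [hmp.map_eq]
      exact i3.aestronglyMeasurable
    have h2 := integral_map hmp.measurable.aemeasurable h1
    rw [hmp.map_eq] at h2
    exact h2.symm
  have e2 : ∫ y, ‖g (V t y) - g y‖ ^ 2 ∂μ ≤ η := by
    have h1 : ∫ y, ‖g (V t y) - g y‖ ^ 2 ∂μ ≤ ∫ _, η ∂μ := by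
      refine integral_mono i2 (integrable_const _) fun y => ?_
      show ‖g (V t y) - g y‖ ^ 2 ≤ η
      have h2 := hsup y
      have h3 := norm_nonneg (g (V t y) - g y)
      nlinarith
    simpa using h1
  have e3 : ∫ y, ‖F (V t y) - F y‖ ^ 2 ∂μ ≤
      ∫ y, (3 * ‖F (V t y) - g (V t y)‖ ^ 2 + 3 * ‖g (V t y) - g y‖ ^ 2 +
        3 * ‖F y - g y‖ ^ 2) ∂μ := by
    refine integral_mono i0 (((i1.const_mul 3).add (i2.const_mul 3)).add (i3.const_mul 3))
      fun y => ?_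
    show ‖F (V t y) - F y‖ ^ 2 ≤ 3 * ‖F (V t y) - g (V t y)‖ ^ 2 + 3 * ‖g (V t y) - g y‖ ^ 2 +
        3 * ‖F y - g y‖ ^ 2
    have h1 : ‖F (V t y) - F y‖ ≤ ‖F (V t y) - g (V t y)‖ + ‖g (V t y) - g y‖ + ‖F y - g y‖ := by
      have h2 : F (V t y) - F y = (F (V t y) - g (V t y)) + (g (V t y) - g y) - (F y - g y) := by
        ring
      rw [h2]
      exact (norm_sub_le _ _).trans (add_le_add (norm_add_le _ _) le_rfl)
    have h3 := norm_nonneg (F (V t y) - F y)
    nlinarith [sq_nonneg (‖F (V t y) - g (V t y)‖ - ‖g (V t y) - g y‖),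
      sq_nonneg (‖F (V t y) - g (V t y)‖ - ‖F y - g y‖),
      sq_nonneg (‖g (V t y) - g y‖ - ‖F y - g y‖), norm_nonneg (F (V t y) - g (V t y)),
      norm_nonneg (g (V t y) - g y), norm_nonneg (F y - g y)]
  have i4 : Integrable (fun y => 3 * ‖F (V t y) - g (V t y)‖ ^ 2 + 3 * ‖g (V t y) - g y‖ ^ 2) μ :=
    (i1.const_mul 3).add (i2.const_mul 3)
  rw [integral_add i4 (i3.const_mul 3), integral_add (i1.const_mul 3) (i2.const_mul 3),
    integral_const_mul, integral_const_mul, integral_const_mul, e1] at e3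
  linarith

end Pool.Agent.Helper96.TWR
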