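import Pool.Agent.Helper99.TWR.VIN
import Pool.Agent.Helper96.TWR.TCA
import Pool.Agent.Helper41.TWR.ALS

/-!
Sheet TW (MP_7a8f48_an), row PST: the main step for the independence of the levels.
-/

set_option linter.unusedSectionVars false

open MeasureTheory Filter Topology Finset
open scoped ComplexConjugate

namespace Pool.Agent.Helper96.TWR

open Pool.Agent.Helper98.TW
open Pool.Agent.Helper16.AZ (T mm)
open Pool.Agent.Helper99.TWR (tr_iter tr_measurable SS_measurable trp_measurable trp_trp trp_TT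
  TT_measurable TT_inv jo_eq TRM ex_iter pk_measurable)
open Pool.Agent.Helper46.TWR (ex_norm ex_cont ex_meas ex_uf ex_zero ex_add ex_neg ex_mul_conj)

variable {N : ℕ} {lev : Fin N → ℕ}

theorem tr_pk (k : ℕ) (x t : T N) :
    tr lev (k + 1) (x + pk lev k t) = tr lev (k + 1) x + pk lev k t := by
  funext i
  show (if lev i < k + 1 then x i + (if lev i = k then t i else 0) else 0) =
    (if lev i < k + 1 then x i else 0) + (if lev i = k then t i else 0)
  by_cases h : lev i < k + 1
  · rw [if_pos h, if_pos h]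
  · rw [if_neg h, if_neg h, if_neg (by omega), add_zero]

theorem tr_pk_lt {k l : ℕ} (h : l ≤ k) (x t : T N) :
    tr lev l (x + pk lev k t) = tr lev l x := by
  funext i
  show (if lev i < l then x i + (if lev i = k then t i else 0) else 0) =
    (if lev i < l then x i else 0)
  by_cases h' : lev i < l
  · rw [if_pos h', if_pos h', if_neg (by omega), add_zero]
  · rw [if_neg h', if_neg h']

/-- the increments of the coordinates depend on the lower levels -/
theorem iter_coord {f : Fin N → T N → U} (hf : Tow lev f) (i : Fin N) (n : ℕ) {x y : T N}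
    (h : tr lev (lev i) x = tr lev (lev i) y) :
    (SS f)^[n] x i - x i = (SS f)^[n] y i - y i := by
  induction n with
  | zero => simp
  | succ n ih =>
    rw [Function.iterate_succ_apply', Function.iterate_succ_apply']
    have h1 : f i ((SS f)^[n] x) = f i ((SS f)^[n] y) := by
      rw [← hf.dep i ((SS f)^[n] x), ← hf.dep i ((SS f)^[n] y), ← tr_iter hf (lev i) n x, h,
        tr_iter hf (lev i) n y]
    show (SS f)^[n] x i + f i ((SS f)^[n] x) - x i = (SS f)^[n] y i + f i ((SS f)^[n] y) - y i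
    rw [h1, add_sub_right_comm, ih, add_sub_right_comm]

theorem tr_iter_pk {f : Fin N → T N → U} (hf : Tow lev f) (k n : ℕ) (x t : T N) :
    tr lev (k + 1) ((SS f)^[n] (x + pk lev k t)) =
      tr lev (k + 1) ((SS f)^[n] x) + pk lev k t := by
  rw [← tr_pk]
  funext i
  show (if lev i < k + 1 then (SS f)^[n] (x + pk lev k t) i else 0) =
    (if lev i < k + 1 then (SS f)^[n] x i + pk lev k t i else 0)
  by_cases h : lev i < k + 1
  · rw [if_pos h, if_pos h]
    have h1 := iter_coord hf i n (x := x + pk lev k t) (y := x) (tr_pk_lt (by omega) x t)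
    have h2 : (x + pk lev k t) i = x i + pk lev k t i := rfl
    rw [h2] at h1
    have h3 : (SS f)^[n] (x + pk lev k t) i =
        ((SS f)^[n] (x + pk lev k t) i - (x i + pk lev k t i)) + (x i + pk lev k t i) := by abel
    rw [h3, h1]
    abel
  · rw [if_neg h, if_neg h]

/-- `AM` for the levels `< l` of the first coordinate -/
theorem am_A1 {κ : Measure (T N × T N)} {l : ℕ} {F : T N × T N → ℂ} :
    AM κ (A1 lev l) F ↔ ∃ G : T N → ℂ, Measurable G ∧ F =ᵐ[κ] fun z => G (tr lev l z.1) := by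
  rw [am_iff]
  constructor
  · rintro ⟨g, hg, h⟩
    have e : (A1 lev l : MeasurableSpace (T N × T N)) =
        MeasurableSpace.comap (tr lev l ∘ Prod.fst) inferInstance := by
      show MeasurableSpace.comap Prod.fst (MeasurableSpace.comap (tr lev l) _) = _
      rw [MeasurableSpace.comap_comp]
    rw [e] at hg
    obtain ⟨H, hH, rfl⟩ : ∃ H : T N → ℂ, Measurable H ∧ g = H ∘ (tr lev l ∘ Prod.fst) :=
      hg.exists_eq_measurable_comp
    exact ⟨H, hH, h⟩
  · rintro ⟨G, hG, h⟩
    refine ⟨_, ?_, h⟩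
    have h1 : Measurable[AL lev l] (fun x : T N => G (tr lev l x)) := by
      intro s hs
      exact ⟨G ⁻¹' s, hG hs, rfl⟩
    intro s hs
    exact ⟨_, h1 hs, rfl⟩

theorem lm_A1 (l : ℕ) : Lm (A1 lev l : SA (T N × T N)) :=
  lm_cm measurable_fst (tr_measurable l).comap_le

theorem am_A1_comp {κ : Measure (T N × T N)} {l : ℕ} {R : T N × T N → T N × T N}
    {r : T N → T N} (hR : MeasurePreserving R κ κ) (hr : Measurable r)
    (h : ∀ z, tr lev l (R z).1 = r (tr lev l z.1)) {F : T N × T N → ℂ}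
    (hF : AM κ (A1 lev l) F) : AM κ (A1 lev l) (fun z => F (R z)) := by
  obtain ⟨G, hG, hFG⟩ := am_A1.1 hF
  refine am_A1.2 ⟨fun x => G (r x), hG.comp hr, ?_⟩
  filter_upwards [ae_comp hR hFG] with z hz
  rw [hz, h]

/-- the sigma algebra of the second coordinate is generated by characters -/
theorem snd_le (N : ℕ) : @LE.le (MeasurableSpace (T N × T N)) _
    (MeasurableSpace.comap Prod.snd inferInstance)
    (sg {φ : T N × T N → ℂ | ∃ b : Fin N → ℤ, φ = fun z => ex b z.2}) := by
  have hm : Measurable[(sg {φ : T N × T N → ℂ | ∃ b : Fin N → ℤ, φ = fun z => ex b z.2} :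
      MeasurableSpace (T N × T N))] (Prod.snd : T N × T N → T N) := by
    refine @measurable_pi_lambda _ _ _ (sg _) _ _ fun i => ?_
    have h2 : Measurable[sg {φ : T N × T N → ℂ | ∃ b : Fin N → ℤ, φ = fun z => ex b z.2}]
        (fun z : T N × T N => ex (Pi.single i 1) z.2) :=
      @Measurable.mono _ _ _ _ _ _ _ (comap_measurable _)
        (le_sg (Φ := {φ : T N × T N → ℂ | ∃ b : Fin N → ℤ, φ = fun z => ex b z.2})
          ⟨Pi.single i 1, rfl⟩) le_rfl
    intro s hs
    have hs2 : MeasurableSet[MeasurableSpace.comap (fun z : U => (fourier 1 z : ℂ))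
        (inferInstance : MeasurableSpace ℂ)] s := by
      rw [Pool.Agent.Helper41.TWR.comap_fourier]
      exact hs
    obtain ⟨u, hu, rfl⟩ := hs2
    have h3 := h2 hu
    have e : (fun z : T N × T N => ex (Pi.single i 1) z.2) ⁻¹' u =
        (fun z : T N × T N => z.2 i) ⁻¹' ((fun z : U => (fourier 1 z : ℂ)) ⁻¹' u) := by
      ext z
      show ex (Pi.single i 1) z.2 ∈ u ↔ (fourier 1 (z.2 i) : ℂ) ∈ u
      rw [Pool.Agent.Helper41.TWR.ex_single]
    rw [← e]
    exact h3
  exact hm.comap_le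

theorem st_PST (hCT : ST_CT) (hGL : ST_GL) (hTRV : ST_TRV) : ST_PST := by
  intro N lev f f' p q κ hT hJ hp hq k j a hAct ha ψ w hψ hw hE
  have hprob := hJ.prob
  have hφ := trp_measurable (lev := lev) (k + 1) j
  obtain ⟨hP, hSys, hErg, -, -, hjo⟩ := TRM N lev f f' p q κ hT hJ (k + 1) j
  obtain ⟨μ, hμ⟩ : ∃ μ : Measure (T N × T N), μ = κ.map (trp lev (k + 1) j) := ⟨_, rfl⟩
  rw [← hμ] at hAct hψ hE hP hSys hErg
  obtain ⟨G0, hG0, hG0x⟩ := ex_iter hT.t ha p
  have hinc : ∀ x, ex a ((SS f)^[p] x) * conj (ex a x) = G0 (tr lev (k + 1) x) := by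
    intro x
    rw [hG0x]
    calc ex a x * G0 (tr lev (k + 1) x) * conj (ex a x)
        = (ex a x * conj (ex a x)) * G0 (tr lev (k + 1) x) := by ring
      _ = G0 (tr lev (k + 1) x) := by rw [ex_mul_conj, one_mul]
  -- transfer of null sets
  have htrans : ∀ P : T N → Prop, MeasurableSet {x | P x} →
      (∀ x, P (tr lev (k + 1) x) → P x) → (∀ᵐ z ∂μ, P z.1) → ∀ᵐ x ∂(mm N), P x := by
    intro P hPm hPt h
    have h1 : MeasurableSet {z : T N × T N | P z.1} := measurable_fst hPm
    rw [hμ, ae_map_iff hφ.aemeasurable h1] at h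
    rw [← hJ.fst, ae_map_iff measurable_fst.aemeasurable hPm]
    filter_upwards [h] with z hz
    exact hPt _ hz
  have hVR : ∀ t z, trp lev (k + 1) j (Prod.map (SS f)^[p] (SS f)^[q] (Vp lev k t z)) =
      Vp lev k t (trp lev (k + 1) j (Prod.map (SS f)^[p] (SS f)^[q] z)) := by
    intro t z
    show (tr lev (k + 1) ((SS f)^[p] (z.1 + pk lev k t)), tr lev j ((SS f)^[q] z.2)) =
      (tr lev (k + 1) ((SS f)^[p] z.1) + pk lev k t, tr lev j ((SS f)^[q] z.2))
    rw [tr_iter_pk hT.t]
  have hw1 : ∀ᵐ z ∂μ, ‖w z.2‖ = 1 := by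
    filter_upwards [hE, hψ.2, ae_comp hSys.mp hψ.2] with z hz h1 h2
    have := congrArg norm hz
    rw [norm_mul, norm_mul, norm_mul, RCLike.norm_conj, RCLike.norm_conj, h1, h2, ex_norm,
      ex_norm] at this
    simpa using this.symm
  have hww : ∀ᵐ z ∂μ, w z.2 * conj (w z.2) = 1 := by
    filter_upwards [hw1] with z hz
    rw [Complex.mul_conj, Complex.normSq_eq_norm_sq, hz]
    simp
  -- the sigma algebra
  have hIA : IA μ (A1 lev (k + 1))
      (fun z => trp lev (k + 1) j (Prod.map (SS f)^[p] (SS f)^[q] z))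
      (fun z => trp lev (k + 1) j (Prod.map (SS f')^[p] (SS f')^[q] z)) := by
    refine ⟨lm_A1 _, fun F hF => ⟨?_, ?_⟩⟩
    · refine am_A1_comp hSys.mp (r := fun x => tr lev (k + 1) ((SS f)^[p] x))
        ((tr_measurable _).comp ((SS_measurable hT.t).iterate p)) (fun z => ?_) hF
      show tr lev (k + 1) (tr lev (k + 1) ((SS f)^[p] z.1)) =
        tr lev (k + 1) ((SS f)^[p] (tr lev (k + 1) z.1))
      rw [Pool.Agent.Helper99.TWR.tr_tr le_rfl, tr_iter hT.t]
    · refine am_A1_comp hSys.mp' (r := fun x => tr lev (k + 1) ((SS f')^[p] x))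
        ((tr_measurable _).comp ((SS_measurable hT.t').iterate p)) (fun z => ?_) hF
      show tr lev (k + 1) (tr lev (k + 1) ((SS f')^[p] z.1)) =
        tr lev (k + 1) ((SS f')^[p] (tr lev (k + 1) z.1))
      rw [Pool.Agent.Helper99.TWR.tr_tr le_rfl, tr_iter hT.t']
  have hVA : ∀ t, ∀ F, AM μ (A1 lev (k + 1)) F →
      AM μ (A1 lev (k + 1)) (fun z => F (Vp lev k t z)) := by
    intro t F hF
    refine am_A1_comp (hAct.mp t) (r := fun x => x + pk lev k t)
      (measurable_id.add_const _) (fun z => ?_) hF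
    exact tr_pk k z.1 t
  have hVI : ∀ t, IA μ (A1 lev (k + 1)) (Vp lev k t) (Vp lev k (-t)) := fun t =>
    ⟨lm_A1 _, fun F hF => ⟨hVA t F hF, hVA (-t) F hF⟩⟩
  -- the increments of `ψ` along the action
  have hEV : ∀ t, ∀ᵐ z ∂μ, ψ (Vp lev k t (trp lev (k + 1) j
      (Prod.map (SS f)^[p] (SS f)^[q] z))) * conj (ψ (Vp lev k t z)) =
        G0 (tr lev (k + 1) z.1 + pk lev k t) * w z.2 := by
    intro t
    filter_upwards [ae_comp (hAct.mp t) hE] with z hz
    rw [hinc, hVR] at hz
    rw [hz, ← tr_pk]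
    rfl
  have hInc : ∀ t, Inc μ (A1 lev (k + 1))
      (fun z => trp lev (k + 1) j (Prod.map (SS f)^[p] (SS f)^[q] z))
      (fun x => ψ (Vp lev k t x) * conj (ψ x)) := by
    intro t
    refine am_A1.2 ⟨fun x => G0 (x + pk lev k t) * conj (G0 x),
      (hG0.comp (measurable_id.add_const _)).mul
        (Complex.continuous_conj.measurable.comp hG0), ?_⟩
    filter_upwards [hE, hEV t, hww] with z h1 h2 h3
    rw [hinc] at h1
    calc ψ (Vp lev k t (trp lev (k + 1) j (Prod.map (SS f)^[p] (SS f)^[q] z))) *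
          conj (ψ (trp lev (k + 1) j (Prod.map (SS f)^[p] (SS f)^[q] z))) *
            conj (ψ (Vp lev k t z) * conj (ψ z))
        = (ψ (Vp lev k t (trp lev (k + 1) j (Prod.map (SS f)^[p] (SS f)^[q] z))) *
            conj (ψ (Vp lev k t z))) *
          conj (ψ (trp lev (k + 1) j (Prod.map (SS f)^[p] (SS f)^[q] z)) * conj (ψ z)) := by
          simp only [map_mul, Complex.conj_conj]
          ring
      _ = (G0 (tr lev (k + 1) z.1 + pk lev k t) * w z.2) *
          conj (G0 (tr lev (k + 1) z.1) * w z.2) := by rw [h1, h2]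
      _ = G0 (tr lev (k + 1) z.1 + pk lev k t) * conj (G0 (tr lev (k + 1) z.1)) *
          (w z.2 * conj (w z.2)) := by
          rw [map_mul]
          ring
      _ = _ := by rw [h3, mul_one]
  have hcont : Tendsto (fun t : T N => ∫ x, ‖ψ (Vp lev k t x) - ψ x‖ ^ 2 ∂μ) (𝓝 0) (𝓝 0) := by
    refine st_TCA (T N × T N) μ N (Vp lev k) ψ hAct ?_ ?_
    · have hpk : Continuous (pk lev k : T N → T N) := by
        refine continuous_pi fun i => ?_
        by_cases h : lev i = k
        · simp only [pk, if_pos h]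
          exact continuous_apply i
        · simp only [pk, if_neg h]
          exact continuous_const
      exact ((continuous_fst.comp continuous_snd).add (hpk.comp continuous_fst)).prodMk
        (continuous_snd.comp continuous_snd)
    · refine MemLp.of_bound hψ.1.aestronglyMeasurable 1 ?_
      filter_upwards [hψ.2] with z hz
      exact hz.le
  have hAM := hCT (T N × T N) μ _ _ (A1 lev (k + 1)) N (Vp lev k) ψ hSys hErg hIA hAct hVI hψ
    hInc hcont
  -- gluing
  have hψtr : ∀ᵐ z ∂μ, ψ z = ψ (trp lev (k + 1) j z) := by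
    have hms : MeasurableSet {z : T N × T N | ψ z = ψ (trp lev (k + 1) j z)} :=
      measurableSet_eq_fun hψ.1 (hψ.1.comp hφ)
    rw [hμ, ae_map_iff hφ.aemeasurable hms]
    refine Eventually.of_forall fun z => ?_
    rw [trp_trp]
  have hΦ : Grp μ {φ : T N × T N → ℂ | ∃ b : Fin N → ℤ, φ = fun z => ex b z.2} := by
    refine ⟨?_, ⟨0, ?_⟩, ?_, ?_⟩
    · rintro φ ⟨b, rfl⟩
      exact ⟨(ex_meas b).comp measurable_snd, Eventually.of_forall fun z => ex_norm b z.2⟩
    · funext z
      rw [ex_zero]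
    · rintro φ ⟨b, rfl⟩ φ' ⟨c, rfl⟩
      exact ⟨b + c, funext fun z => by rw [ex_add]⟩
    · rintro φ ⟨b, rfl⟩
      exact ⟨-b, funext fun z => by rw [ex_neg]⟩
  have hΦc : {φ : T N × T N → ℂ | ∃ b : Fin N → ℤ, φ = fun z => ex b z.2}.Countable := by
    have : {φ : T N × T N → ℂ | ∃ b : Fin N → ℤ, φ = fun z => ex b z.2} =
        Set.range (fun b : Fin N → ℤ => fun z : T N × T N => ex b z.2) := by
      ext φ
      exact ⟨fun ⟨b, hb⟩ => ⟨b, hb.symm⟩, fun ⟨b, hb⟩ => ⟨b, hb.symm⟩⟩
    rw [this]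
    exact Set.countable_range _
  have hψJ : AM μ (jo (A1 lev (k + 1))
      (sg {φ : T N × T N → ℂ | ∃ b : Fin N → ℤ, φ = fun z => ex b z.2})) ψ := by
    have h1 : AM μ (jo (A1 lev (k + 1)) (B1 lev j)) ψ := by
      rw [hjo]
      refine am_iff.2 ⟨fun z => ψ (trp lev (k + 1) j z), ?_, hψtr⟩
      exact hψ.1.comp (comap_measurable _)
    refine am_mono ?_ h1
    refine sup_le (α := MeasurableSpace (T N × T N)) le_jo_left ?_
    refine le_trans ?_ (le_jo_right (𝒜 := A1 lev (k + 1)))
    refine le_trans ?_ (snd_le N)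
    exact MeasurableSpace.comap_mono (tr_measurable j).comap_le
  obtain ⟨w1, hw1u, hw1a, hglue⟩ := hGL (T N × T N) μ (A1 lev (k + 1)) N (Vp lev k)
    {φ : T N × T N → ℂ | ∃ b : Fin N → ℤ, φ = fun z => ex b z.2} ψ (lm_A1 _) hAct hVI hΦ hΦc
    (by
      rintro φ ⟨b, rfl⟩ t
      exact Eventually.of_forall fun z => rfl) hψ hψJ hAM
  obtain ⟨H, hH, hHw⟩ := am_A1.1 hw1a
  have hHS : ∀ x, H (tr lev (k + 1) ((SS f)^[p] (tr lev (k + 1) x))) =
      H (tr lev (k + 1) ((SS f)^[p] x)) := fun x => by rw [tr_iter hT.t]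
  have hw2 : ∀ᵐ x ∂(mm N), ‖H (tr lev (k + 1) x)‖ = 1 := by
    refine htrans (fun x => ‖H (tr lev (k + 1) x)‖ = 1)
      (measurableSet_eq_fun (hH.comp (tr_measurable _)).norm measurable_const)
      (fun x hx => ?_) ?_
    · rwa [Pool.Agent.Helper99.TWR.tr_tr le_rfl] at hx
    · filter_upwards [hHw, hw1u.2] with z h1 h2
      rw [← h1, h2]
  -- the invariant function
  obtain ⟨h, hh⟩ : ∃ h : T N → ℂ, h = fun x => G0 (tr lev (k + 1) x) *
      conj (H (tr lev (k + 1) ((SS f)^[p] x))) * H (tr lev (k + 1) x) := ⟨_, rfl⟩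
  have hhm : Measurable h := by
    rw [hh]
    exact ((hG0.comp (tr_measurable _)).mul (Complex.continuous_conj.measurable.comp
      (hH.comp ((tr_measurable _).comp ((SS_measurable hT.t).iterate p))))).mul
      (hH.comp (tr_measurable _))
  have hhtr : ∀ x, h (tr lev (k + 1) x) = h x := by
    intro x
    rw [hh]
    simp only [Pool.Agent.Helper99.TWR.tr_tr le_rfl, hHS]
  have hhz : ∀ᵐ z ∂μ, h z.1 =
      (ψ (trp lev (k + 1) j (Prod.map (SS f)^[p] (SS f)^[q] z)) *
        conj (w1 (trp lev (k + 1) j (Prod.map (SS f)^[p] (SS f)^[q] z)))) *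
      conj (ψ z * conj (w1 z)) * conj (w z.2) := by
    filter_upwards [hE, hww, hHw, ae_comp hSys.mp hHw] with z h1 h2 h3 h4
    rw [hinc] at h1
    have h5 : w1 (trp lev (k + 1) j (Prod.map (SS f)^[p] (SS f)^[q] z)) =
        H (tr lev (k + 1) ((SS f)^[p] z.1)) := by
      rw [h4]
      show H (tr lev (k + 1) (tr lev (k + 1) ((SS f)^[p] z.1))) = _
      rw [Pool.Agent.Helper99.TWR.tr_tr le_rfl]
    rw [h5, h3, hh]
    calc G0 (tr lev (k + 1) z.1) * conj (H (tr lev (k + 1) ((SS f)^[p] z.1))) *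
          H (tr lev (k + 1) z.1)
        = (G0 (tr lev (k + 1) z.1) * w z.2) * conj (w z.2) *
          conj (H (tr lev (k + 1) ((SS f)^[p] z.1))) * H (tr lev (k + 1) z.1) := by
          rw [mul_assoc (G0 (tr lev (k + 1) z.1)) (w z.2), h2, mul_one]
      _ = (ψ (trp lev (k + 1) j (Prod.map (SS f)^[p] (SS f)^[q] z)) * conj (ψ z)) *
          conj (w z.2) * conj (H (tr lev (k + 1) ((SS f)^[p] z.1))) *
          H (tr lev (k + 1) z.1) := by rw [h1]
      _ = _ := by
          simp only [map_mul, Complex.conj_conj]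
          ring
  have hinv : ∀ t, ∀ᵐ x ∂(mm N), h (x + pk lev k t) = h x := by
    intro t
    refine htrans (fun x => h (x + pk lev k t) = h x)
      (measurableSet_eq_fun (hhm.comp (measurable_id.add_const _)) hhm) (fun x hx => ?_) ?_
    · rw [← tr_pk, hhtr, hhtr] at hx
      exact hx
    · filter_upwards [hhz, ae_comp (hAct.mp t) hhz, hglue t, ae_comp hSys.mp (hglue t)]
        with z h1 h2 h3 h4
      have h5 : (Vp lev k t z).1 = z.1 + pk lev k t := rfl
      have h6 : (Vp lev k t z).2 = z.2 := rfl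
      rw [h5, h6, hVR, h3, h4] at h2
      rw [h1, h2]
  have hmul : ∀ᵐ x ∂(mm N), ‖h x‖ ≤ 1 := by
    have hG1 : ∀ x, ‖G0 (tr lev (k + 1) x)‖ = 1 := by
      intro x
      rw [← hinc, norm_mul, RCLike.norm_conj, ex_norm, ex_norm, one_mul]
    have h1 : ∀ᵐ x ∂(mm N), ‖H (tr lev (k + 1) ((SS f)^[p] x))‖ = 1 := by
      have h2 := hJ
      have h3 : MeasurePreserving (SS f)^[p] (mm N) (mm N) := by
        refine ⟨(SS_measurable hT.t).iterate p, ?_⟩
        have h4 : (Prod.fst : T N × T N → T N) ∘ (Prod.map (SS f)^[p] (SS f)^[q]) =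
            (SS f)^[p] ∘ Prod.fst := rfl
        conv_rhs => rw [← hJ.fst, ← hJ.erg.toMeasurePreserving.map_eq]
        rw [Measure.map_map measurable_fst (TT_measurable hT.t p q), h4,
          ← Measure.map_map ((SS_measurable hT.t).iterate p) measurable_fst, hJ.fst]
      exact ae_comp h3 hw2
    filter_upwards [h1, hw2] with x h2 h3
    rw [hh]
    simp only [norm_mul, RCLike.norm_conj]
    rw [hG1, h2, h3]
    norm_num
  have hhi : Integrable h (mm N) := Integrable.of_bound hhm.aestronglyMeasurable 1 hmul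
  have hhA : AM (mm N) (AL lev (k + 1)) h :=
    Pool.Agent.Helper41.TWR.am_AL_iff.2 ⟨h, hhm, hhtr, Filter.EventuallyEq.rfl⟩
  have hfin := hTRV N lev k h hhi hhA hinv
  refine ⟨fun x => conj (H (tr lev (k + 1) x)), ⟨Complex.continuous_conj.measurable.comp
    (hH.comp (tr_measurable _)), ?_⟩, ?_, ?_⟩
  · filter_upwards [hw2] with x hx
    rw [RCLike.norm_conj, hx]
  · refine Pool.Agent.Helper41.TWR.am_AL_iff.2 ⟨_, Complex.continuous_conj.measurable.comp
      (hH.comp (tr_measurable _)), fun x => ?_, Filter.EventuallyEq.rfl⟩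
    simp only [Function.comp, Pool.Agent.Helper99.TWR.tr_tr le_rfl]
  · refine am_congr hfin (Eventually.of_forall fun x => ?_)
    rw [hh]
    simp only [map_mul, Complex.conj_conj]
    rw [← hinc]
    ring

end Pool.Agent.Helper96.TWR
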